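import Mathlib
import Pool.Agent.Lib_helper74.INS.LCM

set_option autoImplicit false

/-! # The Lovász–Cherkassky theorem for infinite multigraphs

Every admissible pair `(G, T)`, where `G` is a multigraph (loops and parallel edges allowed) of any
cardinality, has a family of pairwise edge-disjoint `T`-paths such that, for every `t ∈ T`, one
can pick one edge from each path ending at `t` so that the picked edges form a cut separating `t`
and `T - t`. -/

namespace Pool.Agent.Results.MP_c55dc1_co.InfiniteMultigraphs

universe u v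

variable {V : Type u} {E : Type v}

/-- An undirected multigraph with vertex set `V` and edge set `E` is given by the map `ends`, which
sends an edge to the unordered pair of its end-vertices (a loop at `v` has the ends `s(v, v)`).
`cut ends X` is the set of the edges with exactly one end in `X`. -/
def cut (ends : E → Sym2 V) (X : Set V) : Set E :=
  {e | (∃ x, x ∈ ends e ∧ x ∈ X) ∧ ∃ y, y ∈ ends e ∧ y ∉ X}

/-- `(G, T)` is admissible: there is no `X ⊆ V ∖ T` such that the number of the edges with exactly
one end in `X` is finite and odd. -/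
def Admissible (ends : E → Sym2 V) (T : Set V) : Prop :=
  ¬ ∃ X : Set V, X ⊆ Tᶜ ∧ (cut ends X).Finite ∧ Odd (cut ends X).ncard

/-- A (finite) path with `len` edges: the pairwise distinct vertices
`vert 0, ..., vert len` and the edges `edge 0, ..., edge (len - 1)`, where `edge i` joins `vert i`
and `vert (i + 1)`. -/
structure MPath (ends : E → Sym2 V) where
  /-- the number of edges -/
  len : ℕ
  /-- the vertices -/
  vert : Fin (len + 1) → V
  /-- the edges -/
  edge : Fin len → E
  inj : Function.Injective vert
  joins : ∀ i : Fin len, ends (edge i) = s(vert i.castSucc, vert i.succ)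

/-- the set of the edges of a path -/
def MPath.edges {ends : E → Sym2 V} (P : MPath ends) : Set E := Set.range P.edge

/-- `t` is an end-vertex of the path `P` -/
def MPath.IsEnd {ends : E → Sym2 V} (P : MPath ends) (t : V) : Prop :=
  P.vert 0 = t ∨ P.vert (Fin.last P.len) = t

/-- `P` is a `T`-path: it has positive length (so its two end-vertices are distinct), its
end-vertices are in `T` and its inner vertices are outside `T`. -/
def IsTPath {ends : E → Sym2 V} (T : Set V) (P : MPath ends) : Prop :=
  0 < P.len ∧ P.vert 0 ∈ T ∧ P.vert (Fin.last P.len) ∈ T ∧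
    ∀ i, i ≠ 0 → i ≠ Fin.last P.len → P.vert i ∉ T

section Proof

open Pool.Agent.LC

/-- an orientation of every edge -/
noncomputable def orient (ends : E → Sym2 V) : E → Bool → V :=
  fun e b => if b then (Quot.out (ends e)).2 else (Quot.out (ends e)).1

theorem orient_spec (ends : E → Sym2 V) (e : E) :
    ends e = s(orient ends e false, orient ends e true) := by
  have h : Quot.mk _ (Quot.out (ends e)) = ends e := Quot.out_eq _
  conv_lhs => rw [← h]
  rfl

theorem orient_dart (ends : E → Sym2 V) (d : E × Bool) :
    ends d.1 = s(tl (orient ends) d, hd (orient ends) d) := by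
  rcases d with ⟨e, b⟩
  cases b
  · exact orient_spec ends e
  · rw [Sym2.eq_swap]; exact orient_spec ends e

theorem cutE_orient (ends : E → Sym2 V) (X : Set V) :
    cutE (orient ends) Set.univ X = cut ends X := by
  ext e
  simp only [cutE, cut, Set.mem_ofPred_eq, Set.mem_univ, true_and]
  rw [orient_spec ends e]
  simp only [Sym2.mem_iff]
  constructor
  · intro hc
    by_cases h0 : orient ends e false ∈ X
    · by_cases h1 : orient ends e true ∈ X
      · exact absurd ⟨fun _ => h1, fun _ => h0⟩ hc
      · exact ⟨⟨_, Or.inl rfl, h0⟩, ⟨_, Or.inr rfl, h1⟩⟩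
    · by_cases h1 : orient ends e true ∈ X
      · exact ⟨⟨_, Or.inr rfl, h1⟩, ⟨_, Or.inl rfl, h0⟩⟩
      · exact absurd ⟨fun h => absurd h h0, fun h => absurd h h1⟩ hc
  · rintro ⟨⟨x, hx1, hx2⟩, ⟨y, hy1, hy2⟩⟩ hiff
    rcases hx1 with rfl | rfl <;> rcases hy1 with rfl | rfl <;> tauto

theorem wk_get {G : E → Bool → V} {w z : V} {L : List (E × Bool)} (h : Wk G w L z) :
    ∀ (i : ℕ) (hi : i < L.length),
      (w :: L.map (hd G))[i]'(by simp; omega) = tl G (L[i]) := by
  induction L generalizing w with
  | nil => intro i hi; simp at hi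
  | cons d L ih =>
    intro i hi
    cases i with
    | zero => exact h.1.symm
    | succ i => exact ih h.2 i (by simpa using hi)

theorem wk_last {G : E → Bool → V} {w z : V} {L : List (E × Bool)} (h : Wk G w L z) :
    (w :: L.map (hd G))[L.length]'(by simp) = z := by
  induction L generalizing w with
  | nil => exact h
  | cons d L ih => exact ih h.2

/-- a list of darts with distinct vertices gives a path -/
theorem exists_mpath (ends : E → Sym2 V) {w z : V} {L : List (E × Bool)}
    (h : Wk (orient ends) w L z) (hn : (w :: L.map (hd (orient ends))).Nodup) :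
    ∃ P : MPath ends, P.len = L.length ∧ P.vert 0 = w ∧ P.vert (Fin.last P.len) = z ∧
      (∀ i, P.vert i ∈ w :: L.map (hd (orient ends))) ∧
      ∀ e, e ∈ P.edges ↔ ∃ d ∈ L, d.1 = e := by
  have hl : (w :: L.map (hd (orient ends))).length = L.length + 1 := by simp
  refine ⟨⟨L.length, fun i => (w :: L.map (hd (orient ends)))[(i : ℕ)]'(by rw [hl]; exact i.2),
    fun i => (L[(i : ℕ)]).1, ?_, ?_⟩, rfl, rfl, ?_, ?_, ?_⟩
  · intro i j hij
    exact Fin.ext ((List.Nodup.getElem_inj_iff hn).1 hij)
  · intro i
    rw [orient_dart ends (L[(i : ℕ)])]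
    have h1 := wk_get h i i.2
    congr 1
    simp only [Fin.val_castSucc, Fin.val_succ]
    rw [h1]
    simp
  · exact wk_last h
  · intro i
    exact List.getElem_mem _
  · intro e
    constructor
    · rintro ⟨i, hi⟩
      exact ⟨L[(i : ℕ)], List.getElem_mem _, hi⟩
    · rintro ⟨d, hd1, hd2⟩
      obtain ⟨i, hi, hid⟩ := List.mem_iff_getElem.1 hd1
      exact ⟨⟨i, hi⟩, by rw [← hd2, ← hid]⟩

end Proof

/-- **The infinite Lovász–Cherkassky theorem for multigraphs.** For every admissible `(G, T)` there
is a family of pairwise edge-disjoint `T`-paths such that for every `t ∈ T` one can pick one edge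
from each path of the family which has the end-vertex `t`, so that the set of the picked edges is
a cut separating `t` and `T - t`. -/
theorem result (ends : E → Sym2 V) (T : Set V) (hT : Admissible ends T) :
    ∃ (ι : Type v) (P : ι → MPath ends),
      (∀ i, IsTPath T (P i)) ∧
      (∀ i j, i ≠ j → Disjoint (P i).edges (P j).edges) ∧
      ∀ t ∈ T, ∃ pick : ι → E,
        (∀ i, (P i).IsEnd t → pick i ∈ (P i).edges) ∧
        ∃ Y : Set V, Y ∩ T = {t} ∧ pick '' {i | (P i).IsEnd t} = cut ends Y := by
  obtain ⟨ι, a, b, p, h1, h2, h3⟩ := Pool.Agent.LCM.main (orient ends) T (by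
    intro X hX hfin
    rw [cutE_orient] at hfin ⊢
    by_contra hcon
    exact hT ⟨X, hX, hfin, Nat.not_even_iff_odd.1 hcon⟩)
  choose P hP1 hP2 hP3 hP4 hP5 using fun i => exists_mpath ends (h1 i).1 (h1 i).2.1
  have hend : ∀ i t, (P i).IsEnd t ↔ (a i = t ∨ b i = t) := by
    intro i t
    unfold MPath.IsEnd
    rw [hP2 i, hP3 i]
  refine ⟨ι, P, ?_, ?_, ?_⟩
  · intro i
    obtain ⟨g1, g2, g3, g4, g5, g6⟩ := h1 i
    refine ⟨?_, by rw [hP2]; exact g3, by rw [hP3]; exact g4, ?_⟩
    · rw [hP1 i]
      rcases hp : p i with _ | ⟨d, L⟩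
      · rw [hp] at g1
        exact absurd g1 g5
      · simp
    · intro j hj0 hjl hjT
      rcases g6 _ (hP4 i j) hjT with h | h
      · apply hj0
        apply (P i).inj
        rw [hP2 i, h]
      · apply hjl
        apply (P i).inj
        rw [hP3 i, h]
  · intro i j hij
    rw [Set.disjoint_left]
    intro e he1 he2
    obtain ⟨d, hd1, hd2⟩ := (hP5 i e).1 he1
    obtain ⟨d', hd1', hd2'⟩ := (hP5 j e).1 he2
    exact h2 i j hij d hd1 d' hd1' (hd2.trans hd2'.symm)
  · intro t ht
    obtain ⟨f, Y, k1, k2, k3⟩ := h3 t ht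
    refine ⟨f, ?_, Y, k2, ?_⟩
    · intro i hi
      exact (hP5 i (f i)).2 (k1 i ((hend i t).1 hi))
    · rw [← cutE_orient, ← k3]
      ext e
      constructor
      · rintro ⟨i, hi, rfl⟩
        exact ⟨i, (hend i t).1 hi, rfl⟩
      · rintro ⟨i, hi, rfl⟩
        exact ⟨i, (hend i t).2 hi, rfl⟩

end Pool.Agent.Results.MP_c55dc1_co.InfiniteMultigraphs
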